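import Mathlib
import Pool.Agent.VM5.Stmts
import Pool.Agent.Helper98_VM5.Kit

set_option autoImplicit false

namespace Pool.Agent.VM5.H41

open Pool.Agent.VM5
open Pool.Agent.VM (Nr)

/-- the factorizations of a nonzero integer are a finite set -/
theorem fac_finite {m : ℤ} (hm : m ≠ 0) :
    {x : ℤ × ℤ × ℤ × ℤ | x.1 * x.2.1 * x.2.2.1 * x.2.2.2 = m}.Finite := by
  have key : ∀ a c : ℤ, a * c = m → a ∈ Set.Icc (-|m|) |m| := by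
    intro a c h
    have h1 : a ∣ m := ⟨c, h.symm⟩
    have h2 : |a| ≤ |m| := Int.le_of_dvd (abs_pos.mpr hm) ((abs_dvd_abs a m).mpr h1)
    exact abs_le.mp h2
  refine Set.Finite.subset (((Set.finite_Icc (-|m|) |m|).prod
    ((Set.finite_Icc (-|m|) |m|).prod ((Set.finite_Icc (-|m|) |m|).prod
      (Set.finite_Icc (-|m|) |m|))))) ?_
  rintro ⟨x, y, z, w⟩ h
  simp only [Set.mem_ofPred_eq] at h
  refine ⟨key x (y * z * w) (by rw [← h]; ring), key y (x * z * w) (by rw [← h]; ring),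
    key z (x * y * w) (by rw [← h]; ring), key w (x * y * z) (by rw [← h]; ring)⟩

theorem rsm_fib {C ε : ℝ} (hε : 0 < ε)
    (hdv : ∀ m : ℤ, m ≠ 0 →
      (Nat.card {x : ℤ × ℤ × ℤ × ℤ // x.1 * x.2.1 * x.2.2.1 * x.2.2.2 = m} : ℝ) ≤
        C * |(m : ℝ)| ^ (ε / 2)) (hC : 0 < C) (N : ℕ) (P : ℕ × ℤ → Prop)
    (hP : ∀ x, P x → 1 ≤ x.1 ∧ x.1 ≤ N ∧ x.2 ≠ 0 ∧ |x.2| ≤ 6 * (N : ℤ)) (y : ℤ) :
    (Nat.card {x : ℕ × ℤ // P x ∧ (x.1 : ℤ) * x.2 = y} : ℝ) ≤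
      C * (6 : ℝ) ^ (ε / 2) * (N : ℝ) ^ ε := by
  have hnn : 0 ≤ C * (6 : ℝ) ^ (ε / 2) * (N : ℝ) ^ ε := by positivity
  by_cases hem : IsEmpty {x : ℕ × ℤ // P x ∧ (x.1 : ℤ) * x.2 = y}
  · rw [Nat.card_of_isEmpty]; simpa using hnn
  rw [not_isEmpty_iff] at hem
  obtain ⟨⟨x₀, hx₀, hy₀⟩⟩ := hem
  obtain ⟨h1, h2, h3, h4⟩ := hP x₀ hx₀
  have hy : y ≠ 0 := by
    rw [← hy₀]
    exact mul_ne_zero (by exact_mod_cast (by omega : x₀.1 ≠ 0)) h3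
  have hyb : |(y : ℝ)| ≤ 6 * (N : ℝ) ^ 2 := by
    rw [← hy₀]
    push_cast
    rw [abs_mul]
    have a1 : |((x₀.1 : ℕ) : ℝ)| ≤ (N : ℝ) := by
      rw [abs_of_nonneg (Nat.cast_nonneg _)]; exact_mod_cast h2
    have a2 : |((x₀.2 : ℤ) : ℝ)| ≤ 6 * (N : ℝ) := by exact_mod_cast h4
    calc |((x₀.1 : ℕ) : ℝ)| * |((x₀.2 : ℤ) : ℝ)| ≤ (N : ℝ) * (6 * (N : ℝ)) :=
          mul_le_mul a1 a2 (abs_nonneg _) (Nat.cast_nonneg _)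
      _ = 6 * (N : ℝ) ^ 2 := by ring
  have hcard : Nat.card {x : ℕ × ℤ // P x ∧ (x.1 : ℤ) * x.2 = y} ≤
      Nat.card {x : ℤ × ℤ × ℤ × ℤ // x.1 * x.2.1 * x.2.2.1 * x.2.2.2 = y} := by
    refine Kit.card_inj_le (fun x => ((x.1 : ℤ), x.2, 1, 1)) (fac_finite hy) ?_ ?_
    · intro x hx; simpa using hx.2
    · intro x x' _ _ h
      simp only [Prod.mk.injEq, Nat.cast_inj, and_true] at h
      exact Prod.ext h.1 h.2
  calc (Nat.card {x : ℕ × ℤ // P x ∧ (x.1 : ℤ) * x.2 = y} : ℝ)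
      ≤ (Nat.card {x : ℤ × ℤ × ℤ × ℤ // x.1 * x.2.1 * x.2.2.1 * x.2.2.2 = y} : ℝ) := by
        exact_mod_cast hcard
    _ ≤ C * |(y : ℝ)| ^ (ε / 2) := hdv y hy
    _ ≤ C * (6 * (N : ℝ) ^ 2) ^ (ε / 2) := by
        refine mul_le_mul_of_nonneg_left ?_ hC.le
        exact Real.rpow_le_rpow (abs_nonneg _) hyb (by positivity)
    _ = C * (6 : ℝ) ^ (ε / 2) * (N : ℝ) ^ ε := by
        rw [Real.mul_rpow (by norm_num) (by positivity), ← Real.rpow_natCast (N : ℝ) 2,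
          ← Real.rpow_mul (Nat.cast_nonneg N)]
        have : ((2 : ℕ) : ℝ) * (ε / 2) = ε := by push_cast; ring
        rw [this]; ring

theorem rsm (cnb : CnbStmt) (dvb : DvbStmt) : RsmStmt := by
  intro ε hε
  obtain ⟨C₁, hC₁, hdv⟩ := dvb (ε / 2) (by positivity)
  refine ⟨10000 * (C₁ * (6 : ℝ) ^ (ε / 2)), by positivity, ?_⟩
  intro N D K u t b S hPar d hd
  obtain ⟨hDK, hN5, hD10, hND, hNK, hDN, hDK2, hDu, hgcd, hW1, hW2, hS⟩ := hPar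
  obtain ⟨hd1, hd2, hdp, hdu⟩ := hS d hd
  have hu1 : 1 ≤ u := by omega
  have hu : (1 : ℝ) ≤ (u : ℝ) := by exact_mod_cast hu1
  have hu0 : (0 : ℝ) < (u : ℝ) := by linarith
  have hWu : (u : ℝ) ≤ WW N u t b := le_max_left _ _
  have hWB : |t - (b : ℝ) / (u : ℝ)| * (u : ℝ) * (N : ℝ) ^ 5 ≤ WW N u t b := le_max_right _ _
  have hW0 : 0 < WW N u t b := by linarith
  have hK1 : 1 ≤ K := by
    rcases Nat.eq_zero_or_pos K with h | h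
    · subst h; norm_num at hW1; linarith
    · exact h
  have hN1 : 1 ≤ N := by nlinarith
  have hk : (1 : ℝ) ≤ (K : ℝ) := by exact_mod_cast hK1
  have hn : (1 : ℝ) ≤ (N : ℝ) := by exact_mod_cast hN1
  have hD : (10 : ℝ) < (D : ℝ) := by exact_mod_cast hD10
  have hdD : (D : ℝ) < (d : ℝ) := by exact_mod_cast hd1
  have hdD2 : (d : ℝ) ≤ 2 * (D : ℝ) := by exact_mod_cast hd2
  have h4 : 4 * (D : ℝ) * (K : ℝ) ≤ (N : ℝ) := by exact_mod_cast hDK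
  have h5 : (N : ℝ) ≤ 5 * (D : ℝ) * (K : ℝ) := by exact_mod_cast hN5
  have h6 : (N : ℝ) ≤ (K : ℝ) ^ 3 := by exact_mod_cast hNK
  have hk3 : (0 : ℝ) < (K : ℝ) ^ 3 := by positivity
  set β : ℝ := |t - (b : ℝ) / (u : ℝ)| with hβ
  have hβ0 : 0 ≤ β := abs_nonneg _
  set W : ℝ := WW N u t b with hW
  have hWdef : W = max (u : ℝ) (β * (u : ℝ) * (N : ℝ) ^ 5) := rfl
  -- the numerical inequalities
  have hgc : Nat.gcd (10 * d ^ 3) u ≤ 10 := by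
    have hco : Nat.Coprime (d ^ 3) u :=
      Nat.Coprime.pow_left 3 ((Nat.Prime.coprime_iff_not_dvd hdp).mpr hdu)
    rw [Nat.Coprime.gcd_mul_right_cancel 10 hco]
    exact Nat.gcd_le_left u (by norm_num)
  have hA1 : 1 ≤ 10 * d ^ 3 := by
    have : 1 ≤ d ^ 3 := Nat.one_le_pow _ _ (by omega)
    omega
  have hd0 : (0 : ℝ) < (d : ℝ) := by linarith
  have e1 : (4 * (D : ℝ) * (K : ℝ)) ^ 3 ≤ (N : ℝ) ^ 3 :=
    pow_le_pow_left₀ (by positivity) h4 3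
  have e2 : (d : ℝ) ^ 3 ≤ (2 * (D : ℝ)) ^ 3 := pow_le_pow_left₀ hd0.le hdD2 3
  have e3 : (N : ℝ) ^ 3 ≤ (5 * (D : ℝ) * (K : ℝ)) ^ 3 := pow_le_pow_left₀ (by linarith) h5 3
  have e4 : (D : ℝ) ^ 3 ≤ (d : ℝ) ^ 3 := pow_le_pow_left₀ (by linarith) hdD.le 3
  have F1 : 2 * (u : ℝ) * (2 / (K : ℝ) ^ 3 + β * ((10 * d ^ 3 : ℕ) : ℝ) *
      ((6 * N ^ 2 : ℕ) : ℝ)) + 1 ≤ 1 + 19 * (W / (K : ℝ) ^ 3) := by
    have g1 : 2 * (u : ℝ) * (2 / (K : ℝ) ^ 3) ≤ 4 * (W / (K : ℝ) ^ 3) := by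
      have : 2 * (u : ℝ) * (2 / (K : ℝ) ^ 3) = 4 * ((u : ℝ) / (K : ℝ) ^ 3) := by ring
      rw [this]
      exact mul_le_mul_of_nonneg_left (div_le_div_of_nonneg_right hWu hk3.le) (by norm_num)
    have g2 : 2 * (u : ℝ) * (β * ((10 * d ^ 3 : ℕ) : ℝ) * ((6 * N ^ 2 : ℕ) : ℝ)) ≤
        15 * (W / (K : ℝ) ^ 3) := by
      rw [← mul_div_assoc, le_div_iff₀ hk3]
      push_cast
      have q0 : 0 ≤ β * (u : ℝ) * (N : ℝ) ^ 2 := by positivity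
      have q1 : (d : ℝ) ^ 3 * (K : ℝ) ^ 3 ≤ (2 * (D : ℝ)) ^ 3 * (K : ℝ) ^ 3 :=
        mul_le_mul_of_nonneg_right e2 hk3.le
      have q2 : 8 * ((2 * (D : ℝ)) ^ 3 * (K : ℝ) ^ 3) ≤ (N : ℝ) ^ 3 := by
        calc 8 * ((2 * (D : ℝ)) ^ 3 * (K : ℝ) ^ 3) = (4 * (D : ℝ) * (K : ℝ)) ^ 3 := by ring
          _ ≤ _ := e1
      have q3 : 8 * ((d : ℝ) ^ 3 * (K : ℝ) ^ 3) ≤ (N : ℝ) ^ 3 := by linarith
      calc 2 * (u : ℝ) * (β * (10 * (d : ℝ) ^ 3) * (6 * (N : ℝ) ^ 2)) * (K : ℝ) ^ 3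
          = 15 * ((β * (u : ℝ) * (N : ℝ) ^ 2) * (8 * ((d : ℝ) ^ 3 * (K : ℝ) ^ 3))) := by ring
        _ ≤ 15 * ((β * (u : ℝ) * (N : ℝ) ^ 2) * (N : ℝ) ^ 3) := by
            exact mul_le_mul_of_nonneg_left (mul_le_mul_of_nonneg_left q3 q0) (by norm_num)
        _ = 15 * (β * (u : ℝ) * (N : ℝ) ^ 5) := by ring
        _ ≤ 15 * W := by linarith
    have : 2 * (u : ℝ) * (2 / (K : ℝ) ^ 3 + β * ((10 * d ^ 3 : ℕ) : ℝ) *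
      ((6 * N ^ 2 : ℕ) : ℝ)) = 2 * (u : ℝ) * (2 / (K : ℝ) ^ 3) +
      2 * (u : ℝ) * (β * ((10 * d ^ 3 : ℕ) : ℝ) * ((6 * N ^ 2 : ℕ) : ℝ)) := by ring
    rw [this]; linarith
  have F2 : ∃ L : ℝ, 0 ≤ L ∧ (2 * ((6 * N ^ 2 : ℕ) : ℝ) ≤ L ∨
      2 * (2 / (K : ℝ) ^ 3) ≤ β * ((10 * d ^ 3 : ℕ) : ℝ) * L) ∧
      1 + ((10 : ℕ) : ℝ) * L / (u : ℝ) ≤ 1 + 500 * ((N : ℝ) ^ 2 / W) := by
    by_cases hc : β * (u : ℝ) * (N : ℝ) ^ 5 ≤ (u : ℝ)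
    · refine ⟨2 * ((6 * N ^ 2 : ℕ) : ℝ), by positivity, Or.inl le_rfl, ?_⟩
      have hWe : W = (u : ℝ) := by rw [hWdef]; exact max_eq_left hc
      rw [hWe]
      push_cast
      have : (10 : ℝ) * (2 * (6 * (N : ℝ) ^ 2)) / (u : ℝ) = 120 * ((N : ℝ) ^ 2 / (u : ℝ)) := by
        ring
      rw [this]
      have : 0 ≤ (N : ℝ) ^ 2 / (u : ℝ) := by positivity
      linarith
    · have hc' : (u : ℝ) < β * (u : ℝ) * (N : ℝ) ^ 5 := not_le.mp hc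
      have hWe : W = β * (u : ℝ) * (N : ℝ) ^ 5 := by rw [hWdef]; exact max_eq_right hc'.le
      have hβ1 : 0 < β := by
        rcases hβ0.eq_or_lt with h | h
        · rw [← h] at hc'; simp at hc'; linarith
        · exact h
      refine ⟨4 / ((K : ℝ) ^ 3 * β * (10 * (d : ℝ) ^ 3)), by positivity, Or.inr ?_, ?_⟩
      · apply le_of_eq
        push_cast
        field_simp
        norm_num
      · rw [hWe]
        have l1 : ((10 : ℕ) : ℝ) * (4 / ((K : ℝ) ^ 3 * β * (10 * (d : ℝ) ^ 3))) / (u : ℝ) =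
            (4 / (β * (u : ℝ))) * (1 / ((K : ℝ) ^ 3 * (d : ℝ) ^ 3)) := by
          push_cast
          field_simp
        have l2 : 500 * ((N : ℝ) ^ 2 / (β * (u : ℝ) * (N : ℝ) ^ 5)) =
            (4 / (β * (u : ℝ))) * (125 / (N : ℝ) ^ 3) := by
          have hn0 : (N : ℝ) ≠ 0 := by linarith
          field_simp
          ring
        rw [l1, l2]
        have l3 : 1 / ((K : ℝ) ^ 3 * (d : ℝ) ^ 3) ≤ 125 / (N : ℝ) ^ 3 := by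
          rw [div_le_div_iff₀ (by positivity) (by positivity)]
          calc 1 * (N : ℝ) ^ 3 ≤ (5 * (D : ℝ) * (K : ℝ)) ^ 3 := by linarith
            _ = 125 * ((K : ℝ) ^ 3 * (D : ℝ) ^ 3) := by ring
            _ ≤ 125 * ((K : ℝ) ^ 3 * (d : ℝ) ^ 3) := by
                exact mul_le_mul_of_nonneg_left (mul_le_mul_of_nonneg_left e4 hk3.le)
                  (by norm_num)
        have l4 : 0 ≤ 4 / (β * (u : ℝ)) := by positivity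
        have := mul_le_mul_of_nonneg_left l3 l4
        linarith
  obtain ⟨L, hL0, hL1, hL2⟩ := F2
  have hcount := cnb t (2 / (K : ℝ) ^ 3) L b u (10 * d ^ 3) 10 (6 * N ^ 2) hu1 hgcd hA1 hgc
    (by positivity) hL0 hL1
  have hcount2 : (Nat.card {n : ℤ // |n| ≤ ((6 * N ^ 2 : ℕ) : ℤ) ∧
      Nr (t * (((10 * d ^ 3 : ℕ) : ℝ) * (n : ℝ))) (2 / (K : ℝ) ^ 3)} : ℝ) ≤
      10000 * (N : ℝ) * (1 + (N : ℝ) / (u : ℝ)) := by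
    refine hcount.trans ?_
    have p0 : 0 ≤ 1 + ((10 : ℕ) : ℝ) * L / (u : ℝ) := by positivity
    have p1 : 0 ≤ 1 + 19 * (W / (K : ℝ) ^ 3) := by positivity
    have p2 : W / (K : ℝ) ^ 3 ≤ (D : ℝ) := by
      rw [div_le_iff₀ hk3]; exact hW2
    have p3 : (D : ℝ) ≤ (N : ℝ) := by nlinarith
    have p4 : (N : ℝ) ^ 2 / (K : ℝ) ^ 3 ≤ (N : ℝ) := by
      rw [div_le_iff₀ hk3]
      nlinarith
    have p5 : (N : ℝ) ^ 2 / W ≤ (N : ℝ) ^ 2 / (u : ℝ) :=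
      div_le_div_of_nonneg_left (by positivity) hu0 hWu
    calc (2 * (u : ℝ) * (2 / (K : ℝ) ^ 3 + β * ((10 * d ^ 3 : ℕ) : ℝ) *
          ((6 * N ^ 2 : ℕ) : ℝ)) + 1) * (1 + ((10 : ℕ) : ℝ) * L / (u : ℝ))
        ≤ (1 + 19 * (W / (K : ℝ) ^ 3)) * (1 + 500 * ((N : ℝ) ^ 2 / W)) :=
          mul_le_mul F1 hL2 p0 p1
      _ = 1 + 19 * (W / (K : ℝ) ^ 3) + 500 * ((N : ℝ) ^ 2 / W) +
          9500 * ((N : ℝ) ^ 2 / (K : ℝ) ^ 3) := by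
          field_simp
          ring
      _ ≤ 1 + 19 * (N : ℝ) + 500 * ((N : ℝ) ^ 2 / (u : ℝ)) + 9500 * (N : ℝ) := by
          linarith
      _ ≤ 10000 * (N : ℝ) * (1 + (N : ℝ) / (u : ℝ)) := by
          have : 10000 * (N : ℝ) * (1 + (N : ℝ) / (u : ℝ)) =
            10000 * (N : ℝ) + 10000 * ((N : ℝ) ^ 2 / (u : ℝ)) := by ring
          rw [this]
          have : 0 ≤ (N : ℝ) ^ 2 / (u : ℝ) := by positivity
          linarith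
  -- the fibres
  have hfinP : {x : ℕ × ℤ | 1 ≤ x.1 ∧ x.1 ≤ N ∧ x.2 ≠ 0 ∧ |x.2| ≤ 6 * (N : ℤ) ∧
      Nr (t * (10 * (x.1 : ℝ) * (d : ℝ) ^ 3 * (x.2 : ℝ))) (2 / (K : ℝ) ^ 3)}.Finite := by
    refine Set.Finite.subset ((Set.finite_Icc 1 N).prod
      (Set.finite_Icc (-(6 * (N : ℤ))) (6 * (N : ℤ)))) ?_
    rintro ⟨h, r⟩ ⟨q1, q2, -, q4, -⟩
    exact ⟨⟨q1, q2⟩, abs_le.mp q4⟩
  have hfinQ : {n : ℤ | |n| ≤ ((6 * N ^ 2 : ℕ) : ℤ) ∧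
      Nr (t * (((10 * d ^ 3 : ℕ) : ℝ) * (n : ℝ))) (2 / (K : ℝ) ^ 3)}.Finite := by
    refine Set.Finite.subset (Set.finite_Icc (-((6 * N ^ 2 : ℕ) : ℤ)) ((6 * N ^ 2 : ℕ) : ℤ)) ?_
    intro n hn
    exact abs_le.mp hn.1
  have hfib := Kit.card_fib_le' hfinP hfinQ (fun x : ℕ × ℤ => (x.1 : ℤ) * x.2)
    (C₁ * (6 : ℝ) ^ (ε / 2) * (N : ℝ) ^ ε) ?_ ?_
  · calc _ ≤ _ := hfib
      _ ≤ (10000 * (N : ℝ) * (1 + (N : ℝ) / (u : ℝ))) *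
          (C₁ * (6 : ℝ) ^ (ε / 2) * (N : ℝ) ^ ε) :=
          mul_le_mul_of_nonneg_right hcount2 (by positivity)
      _ = 10000 * (C₁ * (6 : ℝ) ^ (ε / 2)) * (N : ℝ) ^ (1 + ε) * (1 + (N : ℝ) / (u : ℝ)) := by
          rw [Real.rpow_add (by linarith), Real.rpow_one]
          ring
  · rintro x ⟨q1, q2, q3, q4, q5⟩
    refine ⟨?_, ?_⟩
    · rw [abs_mul]
      have a1 : |(x.1 : ℤ)| ≤ (N : ℤ) := by
        rw [abs_of_nonneg (Int.natCast_nonneg _)]; exact_mod_cast q2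
      calc |(x.1 : ℤ)| * |x.2| ≤ (N : ℤ) * (6 * (N : ℤ)) :=
            mul_le_mul a1 q4 (abs_nonneg _) (Int.natCast_nonneg _)
        _ = ((6 * N ^ 2 : ℕ) : ℤ) := by push_cast; ring
    · have : t * (((10 * d ^ 3 : ℕ) : ℝ) * (((x.1 : ℤ) * x.2 : ℤ) : ℝ)) =
          t * (10 * (x.1 : ℝ) * (d : ℝ) ^ 3 * (x.2 : ℝ)) := by push_cast; ring
      rw [this]; exact q5
  · intro y _
    exact rsm_fib hε hdv hC₁ N _ (fun x hx => ⟨hx.1, hx.2.1, hx.2.2.1, hx.2.2.2.1⟩) y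

end Pool.Agent.VM5.H41
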