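import Mathlib
import Pool.Agent.VM5.Stmts
import Pool.Agent.Helper98_VM5.Ta

set_option autoImplicit false

namespace Pool.Agent.VM5.H41

open Pool.Agent.VM5

theorem isCoprime_of_prime_not_dvd {d u : ℕ} (hd : d.Prime) (h : ¬ d ∣ u) :
    IsCoprime (u : ℤ) (d : ℤ) := by
  rw [Nat.isCoprime_iff_coprime]
  exact ((Nat.Prime.coprime_iff_not_dvd hd).mpr h).symm

theorem str (sig : SigStmt) : StrStmt := by
  obtain ⟨C, hC, hsig⟩ := sig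
  refine ⟨2 * C, by positivity, ?_⟩
  intro N D K u t b S hPar hW p hp p' hp' hcl
  obtain ⟨⟨h4, -⟩, ⟨σ3, h3, h3b, -⟩, ⟨σ2, h2, h2b⟩⟩ := hsig N D K u t b S hPar p hp p' hp' hcl
  have hPar' := hPar
  obtain ⟨hDK, hN5, hD10, hND, hNK, hDN, hDK2, hDu, hgcd, hW1, hW2, hS⟩ := hPar'
  have hWnn : 0 ≤ WW N u t b := by
    unfold WW
    exact le_trans (Nat.cast_nonneg u) (le_max_left _ _)
  have hK3 : (0 : ℝ) < (K : ℝ) ^ 3 := by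
    have : 0 ≤ 2 * C * WW N u t b := by positivity
    linarith
  have hσ3 : σ3 = 0 := by
    have h1 : C * WW N u t b / (K : ℝ) ^ 3 < 1 := by
      rw [div_lt_one hK3]
      nlinarith [mul_nonneg hC.le hWnn]
    have h5 : |(σ3 : ℝ)| < 1 := lt_of_le_of_lt h3b h1
    have h6 : |σ3| < 1 := by exact_mod_cast h5
    exact Int.abs_lt_one_iff.mp h6
  subst hσ3
  have hpS : p.2.1 ∈ S := by
    simp only [P2, Finset.mem_product] at hp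
    exact hp.2.1
  have hpS' : p'.2.1 ∈ S := by
    simp only [P2, Finset.mem_product] at hp'
    exact hp'.2.1
  have hcd := isCoprime_of_prime_not_dvd (hS _ hpS).2.2.1 (hS _ hpS).2.2.2
  have hcd' := isCoprime_of_prime_not_dvd (hS _ hpS').2.2.1 (hS _ hpS').2.2.2
  have hcb : IsCoprime (u : ℤ) b := (Int.isCoprime_iff_gcd_eq_one.mpr hgcd).symm
  have h3' : (u : ℤ) ∣ m3 p - m3 p' := by
    have : (u : ℤ) ∣ b * (m3 p - m3 p') := by simpa using h3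
    exact hcb.dvd_of_dvd_mul_left this
  have hY : (u : ℤ) ∣ 10 * (p'.1 : ℤ) * (p'.2.1 : ℤ) ^ 3 *
      ((p'.2.1 : ℤ) * Z2 p - (p.2.1 : ℤ) * Z2 p') := by
    rw [← H98.y2]
    exact dvd_sub (Dvd.dvd.mul_left h3' _) (Dvd.dvd.mul_left h4 _)
  have hst := H98.star p p'
  -- the congruence for `2 σ₂`
  have hA0 : (u : ℤ) ∣ ((p'.2.1 : ℤ) * (p.2.1 : ℤ) ^ 2) * (2 * σ2 - 10 * b *
      ((p.1 : ℤ) ^ 3 * (p.2.1 : ℤ) ^ 2 - (p'.1 : ℤ) ^ 3 * (p'.2.1 : ℤ) ^ 2)) := by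
    have e : ((p'.2.1 : ℤ) * (p.2.1 : ℤ) ^ 2) * (2 * σ2 - 10 * b *
        ((p.1 : ℤ) ^ 3 * (p.2.1 : ℤ) ^ 2 - (p'.1 : ℤ) ^ 3 * (p'.2.1 : ℤ) ^ 2)) =
        - (2 * (p'.2.1 : ℤ) * (p.2.1 : ℤ) ^ 2) * (b * (2 * m2 p - 2 * m2 p') - σ2) +
        (b * (6 * (p'.2.1 : ℤ) * Z2 p ^ 2)) * (m4 p - m4 p') +
        (b * 3 * ((p'.2.1 : ℤ) * Z2 p + (p.2.1 : ℤ) * Z2 p')) *
          (10 * (p'.1 : ℤ) * (p'.2.1 : ℤ) ^ 3 *
            ((p'.2.1 : ℤ) * Z2 p - (p.2.1 : ℤ) * Z2 p')) := by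
      linear_combination b * hst
    rw [e]
    exact dvd_add (dvd_add (Dvd.dvd.mul_left h2 _) (Dvd.dvd.mul_left h4 _))
      (Dvd.dvd.mul_left hY _)
  have hA : (u : ℤ) ∣ 2 * σ2 - 10 * b *
      ((p.1 : ℤ) ^ 3 * (p.2.1 : ℤ) ^ 2 - (p'.1 : ℤ) ^ 3 * (p'.2.1 : ℤ) ^ 2) :=
    (hcd'.mul_right hcd.pow_right).dvd_of_dvd_mul_left hA0
  refine ⟨2 * σ2, ?_, ?_⟩
  · push_cast
    rw [abs_mul, abs_two, mul_assoc, mul_div_assoc]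
    exact mul_le_mul_of_nonneg_left h2b (by norm_num)
  · have e : (10 * b * (p.2.1 : ℤ) ^ 2 * ((p'.2.1 : ℤ) ^ 10 - (p.2.1 : ℤ) ^ 10)) *
          (p.1 : ℤ) ^ 3 - 2 * σ2 * (p'.2.1 : ℤ) ^ 10 =
        (- (p'.2.1 : ℤ) ^ 10) * (2 * σ2 - 10 * b *
          ((p.1 : ℤ) ^ 3 * (p.2.1 : ℤ) ^ 2 - (p'.1 : ℤ) ^ 3 * (p'.2.1 : ℤ) ^ 2)) +
        (-(2 * b) * ((p.1 : ℤ) ^ 2 * (p.2.1 : ℤ) ^ 8 + (p.1 : ℤ) * (p'.1 : ℤ) *
          (p.2.1 : ℤ) ^ 4 * (p'.2.1 : ℤ) ^ 4 + (p'.1 : ℤ) ^ 2 * (p'.2.1 : ℤ) ^ 8)) *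
          (m4 p - m4 p') := by
      simp only [m4]; ring
    rw [e]
    exact dvd_add (Dvd.dvd.mul_left hA _) (Dvd.dvd.mul_left h4 _)

end Pool.Agent.VM5.H41
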